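import Mathlib
import Pool.Agent.W2helper23.GP.Stm2

/-!
# FEW: the exceptional places are few (helper12)
-/

set_option autoImplicit false

namespace Pool.Agent.W2helper12.GP

open Pool.Agent.Y673.Loc Pool.Agent.Y673.Loc.ZV
open NumberField IsDedekindDomain Finset
open Pool.Agent.Y673.FM Pool.Agent.H691R3 Pool.Agent.W223.AK Pool.Agent.W52.AK
open Pool.Agent.Y733.UD Pool.Agent.Y733.LS Pool.Agent.Y733.FZ Pool.Agent.W2helper23.GP

section
variable {K : Type} [Field K] [NumberField K]

theorem adv_nat_nonneg (v : Pr K) {n : ℕ} (hn : n ≠ 0) : 0 ≤ (adv K v).v (n : K) :=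
  adv_nonneg' v (Nat.cast_ne_zero.2 hn) ((fv_Na v).nat n)

theorem fv_nat (v : Pr K) {n : ℕ} (hn : n ≠ 0) :
    fv v (n : K) = (Nv v) ^ (-((((adv K v).v (n : K)).toNat : ℕ) : ℤ)) := by
  rw [Int.toNat_of_nonneg (adv_nat_nonneg v hn)]
  exact fv_adv v (Nat.cast_ne_zero.2 hn)

/-- the places at which a natural number has a large valuation -/
theorem card_le {n : ℕ} (hn : n ≠ 0) (T : Finset (Pr K)) (c : ℝ) (hc : 0 < c)
    (hT : ∀ v ∈ T, c ≤ ((adv K v).v (n : K) : ℝ)) :
    (T.card : ℝ) * (c * Real.log 2) ≤ Module.finrank ℚ K * Real.log n := by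
  have l2 : 0 < Real.log 2 := Real.log_pos (by norm_num)
  refine le_trans ?_ (sum_mult_le (K := K) hn T (fun v => ((adv K v).v (n : K)).toNat)
    (fun v _ => fv_nat v hn))
  rw [← nsmul_eq_mul, ← Finset.sum_const]
  refine Finset.sum_le_sum fun v hv => ?_
  have h1 := hT v hv
  have h2 : ((((adv K v).v (n : K)).toNat : ℕ) : ℝ) = ((adv K v).v (n : K) : ℝ) := by
    have := Int.toNat_of_nonneg (adv_nat_nonneg v hn)
    exact_mod_cast this
  rw [h2]
  exact mul_le_mul h1 (log_two_le_log_Nv v) l2.le (hc.le.trans h1)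

theorem p_le_Nv (v : Pr K) {p : ℕ} (hp : p.Prime) (h : 0 < (adv K v).v (p : K)) :
    (p : ℝ) ≤ Nv v := by
  have h1 : fv v ((p : 𝓞 K) : K) < 1 := by
    have e : ((p : 𝓞 K) : K) = (p : K) := by simp
    rw [e, fv_adv v (Nat.cast_ne_zero.2 hp.ne_zero), zpow_neg]
    exact inv_lt_one_of_one_lt₀ (one_lt_zpow₀ (Nv_one_lt v) h)
  have h2 : (p : 𝓞 K) ∈ v.asIdeal := (fv_lt_one_iff v).1 h1
  have h3 : ((Ideal.absNorm v.asIdeal : ℕ) : 𝓞 K) ∈ v.asIdeal := Ideal.absNorm_mem v.asIdeal
  have h5 : Ideal.absNorm v.asIdeal ≠ 0 := by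
    rw [Ne, Ideal.absNorm_eq_zero_iff]
    exact v.ne_bot
  have h4 : p ≤ Ideal.absNorm v.asIdeal := by
    by_contra hcon
    push Not at hcon
    have h6 : Nat.Coprime (Ideal.absNorm v.asIdeal) p :=
      ((Nat.Prime.coprime_iff_not_dvd hp).2
        (fun h => absurd (Nat.le_of_dvd (Nat.pos_of_ne_zero h5) h) (not_le.2 hcon))).symm
    have h7 := Nat.isCoprime_iff_coprime.2 h6
    obtain ⟨a, b, hab⟩ := h7
    have h8 : (1 : 𝓞 K) ∈ v.asIdeal := by
      have e : (1 : 𝓞 K) = (a : 𝓞 K) * ((Ideal.absNorm v.asIdeal : ℕ) : 𝓞 K) +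
          (b : 𝓞 K) * (p : 𝓞 K) := by
        have := congrArg (Int.cast : ℤ → 𝓞 K) hab
        push_cast at this
        exact this.symm
      rw [e]
      exact Ideal.add_mem _ (Ideal.mul_mem_left _ _ h3) (Ideal.mul_mem_left _ _ h2)
    exact v.isPrime.ne_top ((Ideal.eq_top_iff_one _).2 h8)
  have h9 : Nv v = (Ideal.absNorm v.asIdeal : ℝ) := rfl
  rw [h9]
  exact_mod_cast h4

theorem adv_le_n (v : Pr K) {p : ℕ} (hp : p.Prime) :
    (adv K v).v (p : K) ≤ Module.finrank ℚ K := by
  by_contra hcon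
  push Not at hcon
  have hpos : 0 < (adv K v).v (p : K) := lt_of_le_of_lt (Nat.cast_nonneg _) hcon
  have h1 := sum_mult_le (K := K) hp.ne_zero {v} (fun v => ((adv K v).v (p : K)).toNat)
    (fun v _ => fv_nat v hp.ne_zero)
  rw [Finset.sum_singleton] at h1
  have h2 : ((((adv K v).v (p : K)).toNat : ℕ) : ℝ) = ((adv K v).v (p : K) : ℝ) := by
    have := Int.toNat_of_nonneg hpos.le
    exact_mod_cast this
  rw [h2] at h1
  have h3 := p_le_Nv v hp hpos
  have hp1 : (1 : ℝ) < p := by exact_mod_cast hp.one_lt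
  have h4 : Real.log p ≤ Real.log (Nv v) := Real.log_le_log (by linarith) h3
  have h5 : 0 < Real.log p := Real.log_pos hp1
  have h6 : ((Module.finrank ℚ K : ℕ) : ℝ) < ((adv K v).v (p : K) : ℝ) := by exact_mod_cast hcon
  have h7 : (0 : ℝ) < ((adv K v).v (p : K) : ℝ) := by exact_mod_cast hpos
  nlinarith

end

theorem few : FEW := by
  classical
  intro N₁
  have l2 : 0 < Real.log 2 := Real.log_pos (by norm_num)
  have hf : (N₁.factorial : ℕ) ≠ 0 := Nat.factorial_ne_zero _
  have lf : 0 ≤ Real.log (N₁.factorial : ℕ) := Real.log_natCast_nonneg _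
  refine ⟨Real.log (N₁.factorial : ℕ) / Real.log 2 + 200 / Real.log 2, by positivity, ?_⟩
  intro K _ _ p
  refine ⟨?_, ?_⟩
  · intro T hT
    have e : (T.card : ℝ) = ((T.filter fun v => (adv K v).v ((N₁.factorial : ℕ) : K) ≠ 0).card : ℝ) +
        ((T.filter fun v => ¬ (adv K v).v ((N₁.factorial : ℕ) : K) ≠ 0).card : ℝ) := by
      rw [← Nat.cast_add, Finset.card_filter_add_card_filter_not]
    rw [e, mul_add]
    refine add_le_add ?_ ?_
    · have h1 := card_le (K := K) hf (T.filter fun v => (adv K v).v ((N₁.factorial : ℕ) : K) ≠ 0) 1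
        one_pos (by
          intro v hv
          have h2 := (Finset.mem_filter.1 hv).2
          have h3 := adv_nat_nonneg v hf
          have h4 : (1 : ℤ) ≤ (adv K v).v ((N₁.factorial : ℕ) : K) := by omega
          exact_mod_cast h4)
      rw [← mul_div_assoc, le_div_iff₀ l2]
      linarith
    · set T' := T.filter fun v => ¬ (adv K v).v ((N₁.factorial : ℕ) : K) ≠ 0 with hT'
      have h2 : ∀ v ∈ T', p.Prime ∧ (p : ℤ) ≤ 200 * (adv K v).v (p : K) := by
        intro v hv
        obtain ⟨h3, h4⟩ := Finset.mem_filter.1 hv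
        exact (hT v h3).resolve_left h4
      rcases T'.eq_empty_or_nonempty with h3 | ⟨w, hw⟩
      · rw [h3, Finset.card_empty, Nat.cast_zero]
        positivity
      · have hp := (h2 w hw).1
        have hp0 : (0 : ℝ) < p := by exact_mod_cast hp.pos
        have h1 := card_le (K := K) hp.ne_zero T' ((p : ℝ) / 200) (by positivity) (by
          intro v hv
          have h4 := (h2 v hv).2
          have h5 : (p : ℝ) ≤ 200 * ((adv K v).v (p : K) : ℝ) := by exact_mod_cast h4
          linarith)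
        have h6 : Real.log p ≤ p := (Real.log_le_sub_one_of_pos hp0).trans (by linarith)
        have h7 : (Module.finrank ℚ K : ℝ) * Real.log p ≤ Module.finrank ℚ K * p :=
          mul_le_mul_of_nonneg_left h6 (Nat.cast_nonneg _)
        have h8 : ((T'.card : ℝ) * Real.log 2) * p ≤ (Module.finrank ℚ K * 200) * p := by
          have e : (T'.card : ℝ) * ((p : ℝ) / 200 * Real.log 2) =
            ((T'.card : ℝ) * Real.log 2) * p / 200 := by ring
          rw [e] at h1
          linarith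
        have h9 := le_of_mul_le_mul_right h8 hp0
        rw [← mul_div_assoc, le_div_iff₀ l2]
        exact h9
  · intro hp v hv
    rcases hv with h1 | ⟨h1, h2⟩
    · exact Or.inl h1
    · exfalso
      have h3 := adv_le_n v h1
      have h4 : (200 : ℤ) * Module.finrank ℚ K < p := by exact_mod_cast hp
      linarith

end Pool.Agent.W2helper12.GP
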